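import Pool.Agent.H343.QF.Asm

/-! # MP_9a852a_al : there is a finitely generated, non-cyclic, torsion-free, lacunary hyperbolic group
which is quasi-finitely axiomatizable -/

namespace Pool.Agent.Results.MP_9a852a_al.LacunaryHyperbolicQFA

open Pool.Agent.H343.QF

theorem result : ∃ (G : Type) (_ : Group G), Group.FG G ∧ ¬ IsCyclic G ∧
    (∀ g : G, IsOfFinOrder g → g = 1) ∧ LacHyp G ∧ QFA G := main

end Pool.Agent.Results.MP_9a852a_al.LacunaryHyperbolicQFA
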